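import Pool.Agent.L5helper61.NC.Gadget
import Pool.Agent.L5helper67.NC.FtPerm2
import Pool.Agent.L5helper34.NC.MultiOf

/-!
NEARLY CUBIC / CUBIC: `gadget2` from the gate, and the permanents `F_t` and the main inequality
from an arbitrary construction of the sum over the colours.
-/

set_option linter.unusedSectionVars false

namespace L5helper61.NC

open Finset MvPolynomial L5helper59.DC L5lead.NC L5helper67.NC L5helper67.DC L5helper96.NC

/-- `gadget2` of spec v2, from the gate -/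
theorem gadget2_of (hG : L5helper34.NC.GateStmt) : @Gadget2Stmt := by
  intro ι ρ γ _ _ _ _ r L m hr a c t ha hc ht h0 hm Y hY
  exact gadget_of r (2 ^ L) (L * (2 * Fintype.card γ + 2 * Fintype.card ρ) + 2 * L ^ 2) m hr a c t
    h0 (fun h => L5helper34.NC.multi' hG L h a c (t ^ r) ha hc (pow_ne_zero _ ht)) hm Y hY

/-- `F_t` is a permanent up to a constant, from a net for the sum over the colours of cost `x` -/
theorem F2t_perm_gen (L r x m : ℕ) (hr : 1 ≤ r) (t : ℝ) (ht : 0 < t)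
    (hmulti : ∀ {p : ℕ} {w : Finset (Fin (2 * 2 ^ L)) → Finset (Fin (2 ^ L)) →
        MvPolynomial (Option (Fin (2 ^ L) × Fin (2 ^ L))) ℂ},
      Rep (Fin (2 * 2 ^ L)) (Fin (2 ^ L)) p w → ∃ K : ℂ, K ≠ 0 ∧
        Rep (Fin (2 * 2 ^ L)) (Fin (2 ^ L)) (p + x)
        (fun S T => C K * C (∑ z ∈ range (2 ^ L), ((t : ℂ) ^ r) ^ (z ^ 2) *
          ((∏ i ∈ T, (t : ℂ) ^ (2 * (i : ℕ))) * ∏ j ∈ S, (t : ℂ)⁻¹ ^ (2 * (j : ℕ))) ^ z) * w S T))
    (hm : m = 2 ^ L + 2 * 2 ^ L + (r + x)) :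
    ∃ (M : Matrix (Fin m) (Fin m) (MvPolynomial (Option (Fin (2 ^ L) × Fin (2 ^ L))) ℂ))
      (K : ℂ), K ≠ 0 ∧ (∀ x y, (M x y).totalDegree ≤ 1) ∧
      M.permanent = C K * F2t (2 ^ L) r (t : ℂ) := by
  classical
  have ht' : (t : ℂ) ≠ 0 := by exact_mod_cast ht.ne'
  have h0 : ∑ z ∈ range (2 ^ L), ((t : ℂ) ^ r) ^ (z ^ 2) ≠ 0 := by
    have h1 : 0 < ∑ z ∈ range (2 ^ L), (t ^ r) ^ (z ^ 2) := by
      apply sum_pos
      · intro z _
        positivity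
      · rw [nonempty_range_iff]
        positivity
    have h2 : (∑ z ∈ range (2 ^ L), ((t : ℂ) ^ r) ^ (z ^ 2)) =
        ((∑ z ∈ range (2 ^ L), (t ^ r) ^ (z ^ 2) : ℝ) : ℂ) := by
      push_cast
      rfl
    rw [h2]
    exact_mod_cast h1.ne'
  obtain ⟨M, K, K', hK, hK', hM, hp⟩ := gadget_of (ι := Fin (2 ^ L) × Fin (2 ^ L))
    (ρ := Fin (2 ^ L)) (γ := Fin (2 * 2 ^ L)) r (2 ^ L) x m hr (fun i => (t : ℂ) ^ (2 * (i : ℕ)))
    (fun j => (t : ℂ)⁻¹ ^ (2 * (j : ℕ))) (t : ℂ) h0 hmulti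
    (by rw [hm, Fintype.card_fin, Fintype.card_fin])
    (fun i j => C ((t : ℂ) ^ e2 0 i j) * Y2 (2 ^ L) i j)
    (fun i j => (totalDegree_C_mul_le _ _).trans (Y2_degree _ i j))
  let θ : MvPolynomial (Option (Fin (2 ^ L) × Fin (2 ^ L))) ℂ →+*
    MvPolynomial (Option (Fin (2 ^ L) × Fin (2 ^ L))) ℂ := (aeval (scl (K / K'))).toRingHom
  refine ⟨M.map θ, K, hK, fun x y => ?_, ?_⟩
  · rw [Matrix.map_apply]
    exact (totalDegree_aeval_le _ (fun o => scl_degree _ o) (M x y)).trans (hM x y)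
  · rw [← permanent_map', hp, map_add, map_mul, map_mul, map_sum]
    have e1 : θ (X none : MvPolynomial (Option (Fin (2 ^ L) × Fin (2 ^ L))) ℂ) =
        C (K / K') * X none := by
      change aeval (scl (K / K')) (X none) = _
      rw [aeval_X]
      rfl
    have eC : ∀ z : ℂ,
        θ (C z : MvPolynomial (Option (Fin (2 ^ L) × Fin (2 ^ L))) ℂ) = C z := by
      intro z
      change aeval (scl (K / K')) (C z) = _
      rw [aeval_C]
      rfl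
    rw [e1, eC, eC, ← mul_assoc, ← C_mul, mul_div_cancel₀ _ hK']
    unfold F2t
    rw [mul_add]
    congr 2
    refine sum_congr rfl fun z _ => ?_
    rw [map_sig]
    congr 1
    funext i j
    rw [map_mul θ, map_mul θ (C ((t : ℂ) ^ e2 0 i j)), eC, eC]
    have e2' : θ (Y2 (2 ^ L) i j) = Y2 (2 ^ L) i j := scl_Y2 _ _ i j
    rw [e2', ← mul_assoc, ← C_mul, exponents2 _ ht']

/-- `F3t_perm` of the cubic spec, from `Rep.multi3` of cost `x` (there `x = cost3 L`) -/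
theorem F3t_perm_of (L x : ℕ)
    (hmulti3 : ∀ {ι : Type} {p : ℕ}
      {w : Finset (Fin (2 * 2 ^ L)) → Finset (Fin (2 ^ L)) → MvPolynomial ι ℂ}
      (_ : Rep (Fin (2 * 2 ^ L)) (Fin (2 ^ L)) p w) (a c τ : ℂ) (_ : a ≠ 0) (_ : c ≠ 0)
      (_ : τ ≠ 0),
      ∃ K : ℂ, K ≠ 0 ∧ Rep (Fin (2 * 2 ^ L)) (Fin (2 ^ L)) (p + x)
        (fun S T => C K * C (∑ z ∈ range (2 ^ L), τ ^ (z ^ 2) *
          ((∏ i ∈ T, a ^ (i : ℕ)) * ∏ j ∈ S, c ^ (j : ℕ)) ^ z) * w S T))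
    (r m : ℕ) (hr : 1 ≤ r) (t : ℝ) (ht : 0 < t) (hm : m = 2 ^ L + 2 * 2 ^ L + (r + x)) :
    ∃ (M : Matrix (Fin m) (Fin m) (MvPolynomial (Option (Fin (2 ^ L) × Fin (2 ^ L))) ℂ))
      (K : ℂ), K ≠ 0 ∧ (∀ x y, (M x y).totalDegree ≤ 1) ∧
      M.permanent = C K * F2t (2 ^ L) r (t : ℂ) := by
  have ht' : (t : ℂ) ≠ 0 := by exact_mod_cast ht.ne'
  refine F2t_perm_gen L r x m hr t ht (fun {p w} h => ?_) hm
  have h1 := hmulti3 h ((t : ℂ) ^ 2) ((t : ℂ)⁻¹ ^ 2) ((t : ℂ) ^ r) (pow_ne_zero _ ht')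
    (pow_ne_zero _ (inv_ne_zero ht')) (pow_ne_zero _ ht')
  simp only [← pow_mul] at h1 ⊢
  exact h1

/-- the main inequality (`main2`, `main3`), from the permanents `F_t` of size `m` -/
theorem main_of_perm (hP : @EsymmStmt)
    (hC1 : ∀ N r : ℕ, F2t N r 0 = F20 N r)
    (hC2 : ∀ (N r : ℕ) (d), Filter.Tendsto
      (fun k : ℕ => coeff d (F2t N r (1 / ((k : ℂ) + 1)))) Filter.atTop
      (nhds (coeff d (F2t N r 0))))
    (hdeg : ∀ (N r : ℕ) (t : ℂ), (F2t N r t).totalDegree ≤ r + 1)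
    (L q m M : ℕ) (hq : 1 ≤ q) (hN : 2 ^ L = 2 * q)
    (hF : ∀ t : ℝ, 0 < t →
      ∃ (M : Matrix (Fin m) (Fin m) (MvPolynomial (Option (Fin (2 ^ L) × Fin (2 ^ L))) ℂ))
        (K : ℂ), K ≠ 0 ∧ (∀ x y, (M x y).totalDegree ≤ 1) ∧
        M.permanent = C K * F2t (2 ^ L) (q + 1) (t : ℂ))
    (H : BorderRep m M) (a b : ℕ) (ha : 1 ≤ a) (hb : 1 ≤ b) :
    (q.factorial ^ 2) ^ (2 * q) * (a ^ (2 * q * (2 * q) + 1) * b ^ (2 * M)) ≤
      (a + b) ^ (2 * M + 1) * (2 * b) ^ (2 * q * (2 * q)) := by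
  have : NeZero q := ⟨by omega⟩
  have h := assembly hP (L := Fin (2 ^ L)) (V := Fin (2 ^ L)) q m M
    (by rw [Fintype.card_fin, hN])
    (fun k => F2t (2 ^ L) (q + 1) (1 / ((k : ℂ) + 1))) (q + 1 + 1) (fun k => hdeg _ _ _)
    (by
      intro d
      have := hC2 (2 ^ L) (q + 1) d
      rw [hC1, F20_eq_target] at this
      exact this)
    (by
      intro k
      have h1 : (0 : ℝ) < 1 / ((k : ℝ) + 1) := by positivity
      have h2 := hF _ h1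
      have h3 : (((1 / ((k : ℝ) + 1) : ℝ)) : ℂ) = 1 / ((k : ℂ) + 1) := by
        push_cast
        rfl
      rw [h3] at h2
      exact h2)
    H a b ha hb
  rw [Fintype.card_fin, hN] at h
  exact h

end L5helper61.NC
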