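import Pool.Agent.L5helper42.NC.Base
import Pool.Agent.L5helper67.NC.Final
import Pool.Agent.L5helper11.NC.SigSum

/-!
NEARLY CUBIC / CUBIC: the gadget, from an arbitrary construction of the sum over the colours.
-/

set_option linter.unusedSectionVars false

namespace L5helper61.NC

open Finset MvPolynomial L5helper59.DC L5lead.NC

theorem pm_empty_empty {R : Type*} [CommRing R] {α β : Type*} [Fintype β] (N : α → β → R) :
    pm N ∅ ∅ = 1 := by
  unfold pm
  rw [sum_empty, prod_empty]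
  exact MvPolynomial.coeff_zero_one

/-- The gadget from a net for the sum over the colours, of cost `x`. -/
theorem gadget_of {ι ρ γ : Type} [Fintype ρ] [Fintype γ] [DecidableEq ρ] [DecidableEq γ]
    (r n x m : ℕ) (hr : 1 ≤ r) (a : ρ → ℂ) (c : γ → ℂ) (t : ℂ)
    (h0 : ∑ z ∈ range n, (t ^ r) ^ (z ^ 2) ≠ 0)
    (hmulti : ∀ {p : ℕ} {w : Finset γ → Finset ρ → MvPolynomial (Option ι) ℂ},
      Rep γ ρ p w → ∃ K : ℂ, K ≠ 0 ∧ Rep γ ρ (p + x)
        (fun S T => C K * C (∑ z ∈ range n, (t ^ r) ^ (z ^ 2) *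
          ((∏ i ∈ T, a i) * ∏ j ∈ S, c j) ^ z) * w S T))
    (hm : m = Fintype.card ρ + Fintype.card γ + (r + x))
    (Y : ρ → γ → MvPolynomial (Option ι) ℂ) (hY : ∀ i j, (Y i j).totalDegree ≤ 1) :
    ∃ (M : Matrix (Fin m) (Fin m) (MvPolynomial (Option ι) ℂ)) (K K' : ℂ), K ≠ 0 ∧ K' ≠ 0 ∧
      (∀ x y, (M x y).totalDegree ≤ 1) ∧
      M.permanent = C K' * X none + C K * ∑ z ∈ range n,
        sig r (fun i j => C (t ^ (z ^ 2) * (a i * c j) ^ z) * Y i j) := by
  obtain ⟨K₀, hK₀, hb⟩ := L5helper42.NC.Rep.base (ι := ι) (α := γ) (β := ρ) r hr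
  obtain ⟨K₁, hK₁, h1⟩ := hmulti hb
  obtain ⟨M, hM, hp⟩ := L5lead.NC.Rep.final h1 Y hY hm
  refine ⟨M, K₁ * (r.factorial : ℂ) ^ 2,
    K₁ * (∑ z ∈ range n, (t ^ r) ^ (z ^ 2)) * K₀, ?_, ?_, hM, ?_⟩
  · exact mul_ne_zero hK₁ (pow_ne_zero _ (Nat.cast_ne_zero.2 (Nat.factorial_ne_zero _)))
  · exact mul_ne_zero (mul_ne_zero hK₁ h0) hK₀
  · rw [hp, ← L5helper11.NC.sum_multi r n Y a c t, mul_sum, add_comm]
    have key : ∀ (I : Finset ρ) (J : Finset γ),
        pm Y I J * (C K₁ * C (∑ z ∈ range n, (t ^ r) ^ (z ^ 2) *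
          ((∏ i ∈ I, a i) * ∏ j ∈ J, c j) ^ z) *
          (if J.card = r ∧ I.card = r then C ((r.factorial : ℂ) ^ 2)
            else if J = ∅ ∧ I = ∅ then C K₀ * X none else 0)) =
        C (K₁ * (r.factorial : ℂ) ^ 2) * (if J.card = r ∧ I.card = r then
          C (∑ z ∈ range n, (t ^ r) ^ (z ^ 2) * ((∏ i ∈ I, a i) * ∏ j ∈ J, c j) ^ z) * pm Y I J
          else 0) +
        (if I = ∅ then (if J = ∅ then
          C (K₁ * (∑ z ∈ range n, (t ^ r) ^ (z ^ 2)) * K₀) * X none else 0) else 0) := by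
      intro I J
      by_cases h1 : J.card = r ∧ I.card = r
      · rw [if_pos h1, if_pos h1]
        have h2 : I ≠ ∅ := by
          rintro rfl
          rw [card_empty] at h1
          omega
        rw [if_neg h2, add_zero, C_mul]
        ring
      · rw [if_neg h1, if_neg h1, mul_zero, zero_add]
        by_cases h2 : J = ∅ ∧ I = ∅
        · obtain ⟨rfl, rfl⟩ := h2
          rw [if_pos ⟨rfl, rfl⟩, if_pos rfl, if_pos rfl, pm_empty_empty]
          simp only [prod_empty, mul_one, one_pow, C_mul]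
          ring
        · rw [if_neg h2, mul_zero, mul_zero]
          by_cases h3 : I = ∅
          · rw [if_pos h3, if_neg (fun h4 => h2 ⟨h4, h3⟩)]
          · rw [if_neg h3]
    rw [sum_congr rfl fun I _ => sum_congr rfl fun J _ => key I J]
    simp only [sum_add_distrib, ← mul_sum]
    congr 1
    simp

end L5helper61.NC
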